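import Pool.Agent.H286R2.UC.Stubs

set_option autoImplicit false

/-!
Task U4 (helper221): the independent coupling.
-/

namespace Pool.Agent.H286R2.UC

open Real Finset Pool.Agent.H117R2 Pool.Agent.H117R2.UC

variable {α : Type*} [DecidableEq α]

namespace U4aux

theorem chainSum_sub_div (f g : Finset α → α → ℝ) (c : ℝ) (l : List α) (S : Finset α) :
    chainSum (fun S j => f S j / c - g S j) S l = chainSum f S l / c - chainSum g S l := by
  induction l generalizing S with
  | nil => simp [chainSum]
  | cons j l ih =>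
    simp only [chainSum]
    rw [ih]
    ring

end U4aux

theorem C0 (F : Finset (Finset α)) (hF : UCl F) (hne : F.Nonempty) (l : List α) (hl : l.Nodup)
    (hs : Sep F l) : chainSum (G1 F) ∅ l ≤ 0 := by
  have hc : (0 : ℝ) < F.card := by exact_mod_cast hne.card_pos
  have h1 : chainSum (G1 F) ∅ l =
      chainSum (fun S j => 2 * (M0 F j : ℝ) * Sg hb F S j - (Sg nu F S j) ^ 2) ∅ l / F.card -
        chainSum (Sg hb F) ∅ l :=
    U4aux.chainSum_sub_div _ _ _ _ _
  have h2 := Stub.chain_ineq F F l hl hF
  have h3 := ent_le (U := F) (f := conv F F) (fun S _ => conv_nonneg F F S)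
  rw [sum_conv F F F hF] at h3
  have h4 := Stub.chainSum_hb F ∅ l
  rw [Stub.HH_empty, Stub.HH_sep (Finset.subset_union_right) hs] at h4
  rw [h1, h4]
  have h5 : chainSum (fun S j => 2 * (M0 F j : ℝ) * Sg hb F S j - (Sg nu F S j) ^ 2) ∅ l /
      F.card ≤ (F.card : ℝ) * log F.card := by
    rw [div_le_iff₀ hc]
    calc _ ≤ _ := h2.trans h3
      _ = _ := by ring
  linarith

end Pool.Agent.H286R2.UC
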